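import Pool.Agent.Q117.MG.All

/-!
# MP_cbf366_nt: completely filled sieve windows in every class to every large modulus, in every short interval
-/

set_option autoImplicit false

namespace Pool.Agent.Results.MP_cbf366_nt.FilledWindowsInClasses

open Finset
open Pool.Agent.Q117.MG (Prm ZA prmC)
open Pool.Agent.Q117.AP (AdQ VQ)
open Pool.Agent.Q117.LF (oF)

/-- the `1 ≤ h ≤ k` for which `r + h` has no prime factor `≤ k` -/
def offsets (r k : ℕ) : Finset ℕ := (Icc 1 k).filter (fun h => ∀ p ∈ (Icc 1 k).filter Nat.Prime, ¬ p ∣ r + h)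

/-- all prime factors of `m` are `> z` -/
def Rough (z : ℝ) (m : ℤ) : Prop := ∀ p : ℕ, p.Prime → (p : ℤ) ∣ m → z < p

/-- the product of `1 - g / p` over the primes `p ≤ x` that do not divide `q` -/
noncomputable def dens (x : ℝ) (q g : ℕ) : ℝ := ∏ p ∈ (Icc 1 ⌊x⌋₊).filter (fun p : ℕ => p.Prime ∧ ¬ p ∣ q), (1 - (g : ℝ) / p)

/-- the `n ≡ r (mod q)` of `(x, x + y]` such that the integers of `(n, n + k]` without prime factors `≤ z` are exactly the `n + h`,
`h ∈ offsets r k`, the number `n + a` is a product of at most `R` primes, all `≥ w`, no integer of the windows `(n + q s, n + q s + k]`,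
`0 < |s| ≤ L`, is without prime factors `≤ z`, and for `0 < |s| ≤ L'` one of the `n + q s + h`, `h ∈ offsets r k`, has a prime factor `≤ z` -/
def Filled (q r k a R : ℕ) (w z L L' x y : ℝ) : Set ℕ :=
  {n : ℕ | x < n ∧ (n : ℝ) ≤ x + y ∧ n ≡ r [MOD q] ∧ (∀ h : ℕ, 1 ≤ h → h ≤ k → (Rough z ((n : ℤ) + h) ↔ h ∈ offsets r k)) ∧
    (n + a).primeFactorsList.length ≤ R ∧ (∀ p : ℕ, p.Prime → p ∣ n + a → w ≤ p) ∧
    (∀ s : ℤ, s ≠ 0 → |(s : ℝ)| ≤ L → ∀ h : ℕ, 1 ≤ h → h ≤ k → ¬ Rough z ((n : ℤ) + q * s + h)) ∧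
    ∀ s : ℤ, s ≠ 0 → |(s : ℝ)| ≤ L' → ∃ h ∈ offsets r k, ¬ Rough z ((n : ℤ) + q * s + h)}

lemma mem_offsets {r k h : ℕ} : h ∈ offsets r k ↔ (1 ≤ h ∧ h ≤ k) ∧ ∀ p : ℕ, p.Prime → p ≤ k → ¬ p ∣ r + h := by
  unfold offsets
  rw [mem_filter, mem_Icc]
  refine and_congr_right fun _ => ?_
  constructor
  · intro h1 p hp hpk
    exact h1 p (mem_filter.2 ⟨mem_Icc.2 ⟨hp.one_le, hpk⟩, hp⟩)
  · intro h1 p hp
    rw [mem_filter, mem_Icc] at hp
    exact h1 p hp.2 hp.1.2

lemma k_le_q {k q : ℕ} (hq : 1 ≤ q) (h : ∀ p : ℕ, p.Prime → p ≤ k → p ∣ q) : k ≤ q := by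
  rcases Nat.lt_or_ge k 2 with h1 | h1
  · omega
  have h2 : 2 ∣ q := h 2 Nat.prime_two h1
  rcases Nat.lt_or_ge k 3 with h3 | h3
  · have := Nat.le_of_dvd (by omega) h2
    omega
  have h33 : 3 ∣ q := h 3 Nat.prime_three h3
  obtain ⟨p, hp, hp1, hp2⟩ := Nat.exists_prime_lt_and_le_two_mul (k / 2) (by omega)
  have hpq : p ∣ q := h p hp (by omega)
  by_cases hp3 : p = 2
  · have h6 : 6 ∣ q := by
      have : 2 * 3 ∣ q := Nat.Coprime.mul_dvd_of_dvd_of_dvd (by norm_num) h2 h33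
      simpa using this
    have := Nat.le_of_dvd (by omega) h6
    omega
  · have h4 : 2 * p ∣ q := Nat.Coprime.mul_dvd_of_dvd_of_dvd ((Nat.coprime_primes Nat.prime_two hp).2 (Ne.symm hp3)) h2 hpq
    have := Nat.le_of_dvd (by omega) h4
    omega

lemma dens_eq {x : ℝ} {q r k : ℕ} (hk : ∀ p : ℕ, p.Prime → p ≤ k → p ∣ q) :
    VQ ⌊x⌋₊ q (ZA (offsets r k)) = dens x q (offsets r k).card := by
  unfold VQ dens
  refine prod_congr rfl fun p hp => ?_
  rw [mem_filter] at hp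
  obtain ⟨_, hpp, hpq⟩ := hp
  have hkp : k < p := by
    by_contra hcon
    exact hpq (hk p hpp (by omega))
  have hc : oF (ZA (offsets r k)) p = (offsets r k).card := by
    unfold oF ZA
    rw [image_image, card_image_of_injOn]
    intro a ha b hb hab
    rw [mem_coe] at ha hb
    have ha1 := (mem_offsets.1 ha).1
    have hb1 := (mem_offsets.1 hb).1
    simp only [Function.comp] at hab
    rw [Int.emod_eq_of_lt (by omega) (by omega), Int.emod_eq_of_lt (by omega) (by omega)] at hab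
    omega
  rw [hc]

/-- **Filled windows in classes to large moduli.** -/
theorem result : ∀ (k R : ℕ) (η κ : ℝ), 1 ≤ R → 0 ≤ κ → η ≤ 1 → 25 < 3 * (8 * R - 1) * (η - κ) →
    ∃ t : ℕ, 1 ≤ t ∧ ∃ c : ℝ, 0 < c ∧ ∃ ν : ℝ, 0 < ν ∧ ∃ x0 : ℝ, ∀ x : ℝ, x0 ≤ x →
    ∀ q : ℕ, 1 ≤ q → (q : ℝ) ≤ x ^ κ → (∀ p : ℕ, p.Prime → p ≤ k → p ∣ q) →
    ∀ r : ℕ, (∀ h ∈ offsets r k, (r + h).Coprime q) → ∀ a ∈ offsets r k,
      c * (x ^ η / q * dens x q (offsets r k).card) ≤
        ((Filled q r k a R (x ^ ((η - κ) / 7)) (x ^ (1 / (t : ℝ))) (ν * ((Nat.totient q : ℝ) / q * Real.log x))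
          (ν / dens x q (offsets r k).card) x (x ^ η)).ncard : ℝ) := by
  classical
  intro k R η κ hR hκ hη hRηκ
  obtain ⟨t, ht, c, hc, ν, hν, x0, H⟩ := prmC k R η κ hR hκ hη hRηκ
  have ht0 : (0 : ℝ) < t := by exact_mod_cast ht
  have ev : ∀ᶠ x : ℝ in Filter.atTop, (k : ℝ) ≤ x ^ (1 / (t : ℝ)) := (tendsto_rpow_atTop (by positivity)).eventually_ge_atTop _
  obtain ⟨x1, hx1⟩ := Filter.eventually_atTop.1 ev
  refine ⟨t, ht, c, hc, ν, hν, max (max x0 x1) (max k 1), ?_⟩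
  intro x hx q hq hqx hqk r hr a ha
  have g1 : x0 ≤ x := ((le_max_left _ _).trans (le_max_left _ _)).trans hx
  have g2 := hx1 x (((le_max_right _ _).trans (le_max_left _ _)).trans hx)
  have g3 : (k : ℝ) ≤ x := ((le_max_left _ _).trans (le_max_right _ _)).trans hx
  have g4 : (1 : ℝ) ≤ x := ((le_max_right _ _).trans (le_max_right _ _)).trans hx
  have hcard : (offsets r k).card ≤ k := by
    unfold offsets
    refine (card_filter_le _ _).trans ?_
    rw [Nat.card_Icc]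
    omega
  have hAd : AdQ q (ZA (offsets r k)) := by
    intro p hp hpq
    refine ⟨0, ?_⟩
    intro e he hd
    unfold ZA at he
    rw [mem_image] at he
    obtain ⟨h, hh, rfl⟩ := he
    have h1 := (mem_offsets.1 hh).1
    have hkp : k < p := by
      by_contra hcon
      exact hpq (hqk p hp (by omega))
    rw [zero_add] at hd
    have h2 : p ∣ h := by exact_mod_cast hd
    have := Nat.le_of_dvd (by omega) h2
    omega
  have h1 := H x g1 q hq hqx (offsets r k) hcard (fun δ hδ => le_trans (by exact_mod_cast (mem_offsets.1 hδ).1.2) g3) hAd r hr a ha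
  rw [dens_eq hqk] at h1
  refine h1.trans ?_
  have hkq := k_le_q hq hqk
  -- multiples of small primes
  have hsmall : ∀ (n : ℕ), n ≡ r [MOD q] → ∀ h : ℕ, 1 ≤ h → h ≤ k → h ∉ offsets r k → ∀ s : ℤ, ¬ Rough (x ^ (1 / (t : ℝ))) ((n : ℤ) + q * s + h) := by
    intro n hn h hh1 hh2 hh s hro
    have h2 : ∃ p : ℕ, p.Prime ∧ p ≤ k ∧ p ∣ r + h := by
      by_contra hcon
      push Not at hcon
      exact hh (mem_offsets.2 ⟨⟨hh1, hh2⟩, hcon⟩)
    obtain ⟨p, hp, hpk, hpd⟩ := h2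
    have hpq := hqk p hp hpk
    have h3 : p ∣ n + h := (((hn.of_dvd hpq).add_right h).dvd_iff dvd_rfl).2 hpd
    have h4 : (p : ℤ) ∣ (n : ℤ) + q * s + h := by
      have e1 : (n : ℤ) + q * s + h = ((n + h : ℕ) : ℤ) + q * s := by push_cast; ring
      rw [e1]
      exact dvd_add (by exact_mod_cast h3) (dvd_mul_of_dvd_left (by exact_mod_cast hpq) _)
    have h5 := hro p hp h4
    have h6 : (p : ℝ) ≤ k := by exact_mod_cast hpk
    linarith
  rw [← Set.ncard_coe_finset]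
  have hfin : (Filled q r k a R (x ^ ((η - κ) / 7)) (x ^ (1 / (t : ℝ))) (ν * ((Nat.totient q : ℝ) / q * Real.log x))
          (ν / dens x q (offsets r k).card) x (x ^ η)).Finite := by
    apply Set.Finite.subset (Set.finite_Iic ⌊x + x ^ η⌋₊)
    intro n hn
    rw [Set.mem_Iic]
    exact Nat.le_floor hn.2.1
  have hsub : ((Prm q r (offsets r k) a R (x ^ ((η - κ) / 7)) (x ^ (1 / (t : ℝ))) (ν * ((Nat.totient q : ℝ) / q * Real.log x))
          (ν / dens x q (offsets r k).card) x (x ^ η) : Finset ℕ) : Set ℕ) ⊆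
      Filled q r k a R (x ^ ((η - κ) / 7)) (x ^ (1 / (t : ℝ))) (ν * ((Nat.totient q : ℝ) / q * Real.log x))
          (ν / dens x q (offsets r k).card) x (x ^ η) := by
    intro n hn
    unfold Prm at hn
    rw [mem_coe, mem_filter, mem_Icc] at hn
    obtain ⟨⟨hn1, hn2⟩, hx1, hmod, hR1, hw, hrough, hiso, hiso2⟩ := hn
    refine ⟨hx1, (Nat.le_floor_iff (by positivity)).1 hn2, hmod, ?_, hR1, hw, ?_, ?_⟩
    · intro h hh1 hh2
      constructor
      · intro hro
        by_contra hcon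
        have := hsmall n hmod h hh1 hh2 hcon 0
        apply this
        simpa using hro
      · intro hh
        exact hrough h hh
    · intro s hs hsL h hh1 hh2
      by_cases hh : h ∈ offsets r k
      · intro hro
        obtain ⟨e, he, hee⟩ := hiso h hh s hsL (by
          have e1 : (n : ℤ) + h + q * s = (n : ℤ) + q * s + h := by ring
          rw [e1]
          exact hro)
        have he1 := (mem_offsets.1 he).1
        have h2 : (q : ℤ) * s = (e : ℤ) - h := by omega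
        have h3 : |(q : ℤ) * s| < q := by
          rw [h2, abs_lt]
          constructor <;> omega
        rw [abs_mul, Nat.abs_cast] at h3
        have h4 : 1 ≤ |s| := Int.one_le_abs hs
        nlinarith [h3, h4, (by exact_mod_cast hq : (1 : ℤ) ≤ q)]
      · exact hsmall n hmod h hh1 hh2 hh s
    · intro s hs hsL
      obtain ⟨h, hh, hh2⟩ := hiso2 s hs hsL
      refine ⟨h, hh, fun hro => hh2 ?_⟩
      have e1 : (n : ℤ) + h + q * s = (n : ℤ) + q * s + h := by ring
      rw [e1]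
      exact hro
  exact_mod_cast Set.ncard_le_ncard hsub hfin

end Pool.Agent.Results.MP_cbf366_nt.FilledWindowsInClasses
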