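import Pool.Agent.Q117.CWi

/-!
# MP_cbf366_nt: narrow progressions in dense sets of filled sieve windows
-/

set_option autoImplicit false

namespace Pool.Agent.Results.MP_cbf366_nt.ProgressionsOfWindows

open Finset

/-- the `1 ≤ h ≤ k` for which `m + h` has no prime factor `≤ k` -/
def offsets (m k : ℕ) : Finset ℕ := (Icc 1 k).filter (fun h => ∀ p ∈ (Icc 1 k).filter Nat.Prime, ¬ p ∣ m + h)

/-- `h_m(k)`: the number of the integers of `(m, m + k]` without prime factors `≤ k` -/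
def hcount (m k : ℕ) : ℕ := (offsets m k).card

open Classical in
/-- the `x` of `(A, B]`, congruent to `m` modulo all primes `≤ k`, for which the integers of `(x, x + k]` without prime factors `≤ X ^ (1/t)`
are exactly the `x + h`, `h ∈ offsets m k`, and of these `x + a` is a prime and `x + b` has at most two prime factors, all `> X ^ (1/9)` -/
noncomputable def windows (m k a b t X A B : ℕ) : Finset ℕ :=
  (Ioc A B).filter (fun x => (∀ p : ℕ, p.Prime → p ≤ k → x ≡ m [MOD p]) ∧ (x + a).Prime ∧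
    ((x + b).primeFactorsList.length ≤ 2 ∧ ∀ q : ℕ, q.Prime → q ∣ x + b → (X : ℝ) ^ (1 / 9 : ℝ) < q) ∧
    ∀ n : ℕ, x < n → n ≤ x + k → ((∀ p : ℕ, p.Prime → (p : ℝ) ≤ (X : ℝ) ^ (1 / (t : ℝ)) → ¬ p ∣ n) ↔ n - x ∈ offsets m k))

/-- **Narrow progressions.** -/
theorem result : ∀ k : ℕ, ∃ t : ℕ, 1 ≤ t ∧
    ∀ (L : ℕ) (θ η : ℝ), 0 < θ → 0 < η → ∃ D X₀ : ℕ, ∀ X : ℕ, X₀ ≤ X → ∀ m a b : ℕ, a ∈ offsets m k → b ∈ offsets m k → a ≠ b →
      ∀ A B : ℕ, B + k ≤ X → θ * X ≤ (B : ℝ) - A → ∀ S ⊆ windows m k a b t X A B,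
      η * ((windows m k a b t X A B).card : ℝ) ≤ S.card →
      ∃ x d : ℕ, 1 ≤ d ∧ (d : ℝ) ≤ Real.log X ^ D ∧ ∀ j < L, x + j * d ∈ S :=
  Pool.Agent.Q117.CWi.progressions

end Pool.Agent.Results.MP_cbf366_nt.ProgressionsOfWindows
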