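import Pool.Agent.Q117.LF.Main5

/-!
MP_cbf366_nt (prime counts in short intervals versus sieve-admissible counts): every string of shapes and of residue classes modulo any `q` occurs for consecutive
windows of length `k` filled with `max_m h_m(k)` almost primes, with the right order of magnitude, with an actual prime and a product of at most two primes at any two
places of the string.
-/

set_option autoImplicit false

namespace Pool.Agent.Results.MP_cbf366_nt.StringsOfRecordWindows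

open Finset

open Classical in
/-- `h_m(k)`: the number of the integers `n`, `m < n ≤ m + k`, which no prime `p ≤ k` divides -/
noncomputable def hcount (k m : ℕ) : ℕ := ((Ioc m (m + k)).filter (fun n : ℕ => ∀ p : ℕ, p.Prime → p ≤ k → ¬ p ∣ n)).card

/-- all prime factors of `m` are `> z` (so `0` is not rough) -/
def Rough (z : ℝ) (m : ℤ) : Prop := ∀ p : ℕ, p.Prime → (p : ℤ) ∣ m → z < p

/-- at most two prime factors (with multiplicity), all `> z` -/
def AtMostTwo (z : ℝ) (m : ℤ) : Prop := m.natAbs.primeFactorsList.length ≤ 2 ∧ Rough z m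

open Classical in
/-- the places of the almost primes in the window `y, y + 1, ..., y + k - 1` -/
noncomputable def places (z : ℝ) (k : ℕ) (y : ℤ) : Finset ℕ := (range k).filter (fun h : ℕ => Rough z (y + h))

/-- the window `y, ..., y + k - 1` begins with an almost prime and contains `κ` almost primes -/
def Full (z : ℝ) (k κ : ℕ) (y : ℤ) : Prop := 0 ∈ places z k y ∧ (places z k y).card = κ

/-- a possible shape: a set of `κ` places of `0, ..., k - 1` which contains `0` and misses a residue class modulo every prime -/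
def Shape (k κ : ℕ) (T : Finset ℕ) : Prop := T ⊆ range k ∧ T.card = κ ∧ 0 ∈ T ∧ ∀ p : ℕ, p.Prime → ∃ r : ℕ, ∀ h ∈ T, ¬ p ∣ r + h

/-- the windows at `m 0 < ... < m J` are consecutive full windows, with the almost primes exactly at the places `T j`, `m J ≤ m 0 + L`, and there are no others at
distance `≤ L` from `m 0` -/
def Run (z L : ℝ) (k κ : ℕ) {J : ℕ} (T : Fin (J + 1) → Finset ℕ) (m : Fin (J + 1) → ℕ) : Prop :=
  StrictMono m ∧ (∀ j, places z k (m j) = T j ∧ (m j : ℝ) ≤ m 0 + L) ∧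
    ∀ y : ℤ, |((y - m 0 : ℤ) : ℝ)| ≤ L → Full z k κ y → ∃ j, y = m j

/-- the `n ∈ (X, 2X]` which begin a run `n = m 0, ..., m J` with `m j ≡ a j (mod q)`, such that `m j₁ + h₁` is prime and `m j₂ + h₂` has at most two prime
factors, all `> X ^ (1/9)` -/
def Strings (k κ q : ℕ) (z X L : ℝ) {J : ℕ} (T : Fin (J + 1) → Finset ℕ) (a : Fin (J + 1) → ℕ) (j₁ j₂ : Fin (J + 1)) (h₁ h₂ : ℕ) : Set ℕ :=
  {n : ℕ | X < n ∧ (n : ℝ) ≤ 2 * X ∧ ∃ m : Fin (J + 1) → ℕ, m 0 = n ∧ Run z L k κ T m ∧ (∀ j, m j ≡ a j [MOD q]) ∧ (m j₁ + h₁).Prime ∧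
    AtMostTwo (X ^ (1 / 9 : ℝ)) ((m j₂ + h₂ : ℕ) : ℤ)}

theorem places_card {z : ℝ} {k κ : ℕ} (hκ : ∀ m, hcount k m ≤ κ) (hz : (k : ℝ) ≤ z) {y : ℕ} (hy : 1 ≤ y) : (places z k (y : ℤ)).card ≤ κ := by
  classical
  refine le_trans ?_ (hκ (y - 1))
  unfold hcount
  apply card_le_card_of_injOn (fun h => y + h)
  · intro h hh
    have hh' : h ∈ places z k (y : ℤ) := hh
    unfold places at hh'
    rw [mem_filter, mem_range] at hh'
    obtain ⟨h1, h2⟩ := hh'
    rw [mem_coe, mem_filter, mem_Ioc]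
    have e : (fun h => y + h) h = y + h := rfl
    rw [e]
    refine ⟨by omega, fun p hp hpk hd => ?_⟩
    have h3 := h2 p hp (by exact_mod_cast hd)
    have h4 : (p : ℝ) ≤ k := by exact_mod_cast hpk
    linarith
  · intro a _ b _ hab
    simpa using hab

theorem result : ∀ k κ : ℕ, IsGreatest (Set.range (hcount k)) κ → ∀ (J q : ℕ) (T : Fin (J + 1) → Finset ℕ) (a : Fin (J + 1) → ℕ), (∀ j, Shape k κ (T j)) →
    1 ≤ q → (∀ j, ∀ h ∈ T j, (a j + h).Coprime q) → ∀ (j₁ j₂ : Fin (J + 1)) (h₁ h₂ : ℕ), h₁ ∈ T j₁ → h₂ ∈ T j₂ → (j₁ ≠ j₂ ∨ h₁ ≠ h₂) →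
    ∃ t : ℕ, 1 ≤ t ∧ ∃ c : ℝ, 0 < c ∧ ∃ ν : ℝ, 0 < ν ∧ ∃ X0 : ℝ, ∀ X : ℝ, X0 ≤ X →
      c * (X / Real.log X ^ κ) ≤ ((Strings k κ q (X ^ (1 / (t : ℝ))) X (ν * Real.log X ^ κ) T a j₁ j₂ h₁ h₂).ncard : ℝ) := by
  classical
  intro k κ hκ J q T a hT hq ha j₁ j₂ h₁ h₂ m1 m2 hne
  obtain ⟨F, hF⟩ : ∃ F : Finset (Finset ℕ), F = ((range k).powerset.filter (fun S => S.card = κ ∧ 0 ∈ S)) := ⟨_, rfl⟩
  have hTF : ∀ j, T j ∈ F := fun j => by
    rw [hF, mem_filter, mem_powerset]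
    exact ⟨(hT j).1, (hT j).2.1, (hT j).2.2.1⟩
  obtain ⟨S, hS⟩ : ∃ S : Fin F.card → Finset ℕ, S = fun γ => (F.equivFin.symm γ : Finset ℕ) := ⟨_, rfl⟩
  have hSF : ∀ γ, S γ ∈ F := fun γ => by rw [hS]; exact (F.equivFin.symm γ).2
  have hSinj : Function.Injective S := by
    rw [hS]
    intro x y hxy
    exact F.equivFin.symm.injective (Subtype.ext hxy)
  have hSsurj : ∀ U ∈ F, ∃ γ, S γ = U := fun U hU => ⟨F.equivFin ⟨U, hU⟩, by rw [hS]; simp⟩
  choose τ hτ using fun j => hSsurj (T j) (hTF j)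
  have hκ1 : 1 ≤ κ := by
    rw [← (hT 0).2.1]
    exact card_pos.2 ⟨0, (hT 0).2.2.1⟩
  obtain ⟨t, ht, c, hc, ν, hν, X0, h⟩ := Pool.Agent.Q117.LF.stcC J F.card q κ S hq hκ1
    (fun γ => by
      have h1 := hSF γ
      rw [hF, mem_filter] at h1
      exact h1.2)
    hSinj τ a (fun j => by rw [hτ j]; exact (hT j).2.2.2) (fun j h hh => ha j h (by rw [hτ j] at hh; exact hh)) j₁ j₂ h₁ h₂
    (by rw [hτ j₁]; exact m1) (by rw [hτ j₂]; exact m2) hne
  refine ⟨t, ht, c, hc, ν, hν, max X0 (max 1 ((k : ℝ) ^ t)), fun X hX => (h X ((le_max_left _ _).trans hX)).trans ?_⟩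
  have hX1 : 1 ≤ X := (le_max_left _ _).trans ((le_max_right _ _).trans hX)
  have hXk : (k : ℝ) ^ t ≤ X := (le_max_right _ _).trans ((le_max_right _ _).trans hX)
  have ht0 : (t : ℝ) ≠ 0 := by exact_mod_cast (show t ≠ 0 by omega)
  have hzk : (k : ℝ) ≤ X ^ (1 / (t : ℝ)) := by
    calc (k : ℝ) = ((k : ℝ) ^ t) ^ (1 / (t : ℝ)) := by
          rw [← Real.rpow_natCast, ← Real.rpow_mul (Nat.cast_nonneg k), mul_one_div_cancel ht0, Real.rpow_one]
      _ ≤ _ := Real.rpow_le_rpow (by positivity) hXk (by positivity)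
  have hfin : (Strings k κ q (X ^ (1 / (t : ℝ))) X (ν * Real.log X ^ κ) T a j₁ j₂ h₁ h₂).Finite := by
    apply Set.Finite.subset (Set.finite_Iic ⌊2 * X⌋₊)
    rintro n ⟨-, h2, -⟩
    exact Nat.le_floor h2
  rw [Nat.cast_le]
  apply Set.ncard_le_ncard _ hfin
  rintro n ⟨g1, g2, m, g3, g4, g5, g6, g7, g8, g9, g10⟩
  refine ⟨g1, g2, m, g3, ⟨g4, fun j => ⟨?_, ?_⟩, fun y hy hfull => ?_⟩, g6, g8, g9⟩
  · have hmj : 1 ≤ m j := by
      have h1 : m 0 ≤ m j := g4.monotone (Fin.zero_le j)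
      have h2 : (0 : ℝ) < (n : ℝ) := by linarith
      have h3 : 0 < n := by exact_mod_cast h2
      omega
    have hsub : T j ⊆ places (X ^ (1 / (t : ℝ))) k (m j) := by
      intro h hh
      unfold places
      rw [mem_filter]
      refine ⟨(hT j).1 hh, ?_⟩
      have h1 := g7 j h (by rw [hτ j]; exact hh)
      exact h1
    refine (eq_of_subset_of_card_le hsub ?_).symm
    rw [(hT j).2.1]
    exact places_card (fun m => hκ.2 ⟨m, rfl⟩) hzk hmj
  · rw [g3]
    exact g5 j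
  · rw [g3] at hy
    obtain ⟨h0, hcard⟩ := hfull
    have hU : places (X ^ (1 / (t : ℝ))) k y ∈ F := by
      rw [hF, mem_filter, mem_powerset]
      refine ⟨?_, hcard, h0⟩
      unfold places
      exact filter_subset _ _
    obtain ⟨γ, hγ⟩ := hSsurj _ hU
    obtain ⟨j, hj, -⟩ := g10 γ y hy (fun h hh => by
      rw [hγ] at hh
      unfold places at hh
      exact (mem_filter.1 hh).2)
    exact ⟨j, hj⟩

end Pool.Agent.Results.MP_cbf366_nt.StringsOfRecordWindows
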